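import Pool.Agent.MP_cce4c9_lc.H7.BaseA

/-! The function attached to an endomorphism: invariance up to `l`-th powers, commutator form. -/

set_option autoImplicit false

open WithZero

namespace Pool.Agent.MP_cce4c9_lc.H94

open Pool.Agent.MP_cce4c9_lc.H87 Pool.Agent.MP_cce4c9_lc.H7

section Ratio

variable {Ω F : Type} [Field Ω] [Field F] [Algebra Ω F] {v w : Place Ω F}

/-- A unit at two places. -/
def Un (v w : Place Ω F) (x : F) : Prop := v.val x = 1 ∧ w.val x = 1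

/-- The ratio of the values at two places. -/
noncomputable def rt (v w : Place Ω F) (x : F) : Ω := v.ev x / w.ev x

theorem Un.mul {x y : F} (hx : Un v w x) (hy : Un v w y) : Un v w (x * y) :=
  ⟨by rw [map_mul, hx.1, hy.1, one_mul], by rw [map_mul, hx.2, hy.2, one_mul]⟩

theorem Un.pow {x : F} (hx : Un v w x) (n : ℕ) : Un v w (x ^ n) :=
  ⟨by rw [map_pow, hx.1, one_pow], by rw [map_pow, hx.2, one_pow]⟩

theorem Un.ne {x : F} (hx : Un v w x) : x ≠ 0 := by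
  rintro rfl
  have := hx.1
  simp at this

theorem val_of_pow (v : Place Ω F) {x : F} {n : ℕ} (hn : n ≠ 0) (h : v.val (x ^ n) = 1) :
    v.val x = 1 := by
  rw [map_pow] at h
  rcases lt_trichotomy (v.val x) 1 with h1 | h1 | h1
  · exact absurd h (pow_lt_one₀ zero_le h1 hn).ne
  · exact h1
  · exact absurd h (one_lt_pow₀ h1 hn).ne'

theorem Un.of_mul_pow {x y : F} {n : ℕ} (hn : n ≠ 0) (hx : Un v w x) (h : Un v w (x * y ^ n)) :
    Un v w y := by
  obtain ⟨h1, h2⟩ := h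
  rw [map_mul, hx.1, one_mul] at h1
  rw [map_mul, hx.2, one_mul] at h2
  exact ⟨val_of_pow v hn h1, val_of_pow w hn h2⟩

theorem rt_mul (hv : v.Res) (hw : w.Res) {x y : F} (hx : Un v w x) (hy : Un v w y) :
    rt v w (x * y) = rt v w x * rt v w y := by
  rw [rt, hv.ev_mul hx.1.le hy.1.le, hw.ev_mul hx.2.le hy.2.le, rt, rt, div_mul_div_comm]

theorem rt_pow (hv : v.Res) (hw : w.Res) {x : F} (hx : Un v w x) (n : ℕ) :
    rt v w (x ^ n) = rt v w x ^ n := by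
  rw [rt, hv.ev_pow hx.1.le, hw.ev_pow hx.2.le, rt, div_pow]

theorem un_const {a : Ω} (ha : a ≠ 0) : Un v w (algebraMap Ω F a) := ⟨v.triv a ha, w.triv a ha⟩

theorem rt_const {a : Ω} (ha : a ≠ 0) : rt v w (algebraMap Ω F a) = 1 := by
  rw [rt, Place.ev_const, Place.ev_const, div_self ha]

theorem rt_root (hv : v.Res) (hw : w.Res) {ζ : Ω} {l : ℕ} [NeZero l] (hζ : IsPrimitiveRoot ζ l)
    {x y : F} (hy : Un v w y) (h : x ^ l = y ^ l) : rt v w x = rt v w y := by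
  have h1 : (x / y) ^ l = 1 := by rw [div_pow, h, div_self (pow_ne_zero _ hy.ne)]
  obtain ⟨i, -, hi⟩ := (hζ.map_of_injective (algebraMap Ω F).injective).eq_pow_of_pow_eq_one h1
  have h0 : ζ ^ i ≠ 0 := pow_ne_zero _ (hζ.ne_zero (NeZero.ne l))
  have h2 : x = algebraMap Ω F (ζ ^ i) * y := by
    rw [map_pow, hi, div_mul_cancel₀ _ hy.ne]
  rw [h2, rt_mul hv hw (un_const h0) hy, rt_const h0, one_mul]

theorem Un.act {θ : SA Ω F} (h1 : θ • v = v) (h2 : θ • w = w) {x : F} (hx : Un v w x) :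
    Un v w (θ.1 x) :=
  ⟨by rw [← hx.1, ← smul_val_apply θ v x, h1], by rw [← hx.2, ← smul_val_apply θ w x, h2]⟩

theorem rt_act (hv : v.Res) (hw : w.Res) {θ : SA Ω F} (τ : Ω →+* Ω)
    (hθ : ∀ a, θ.1 (algebraMap Ω F a) = algebraMap Ω F (τ a)) (h1 : θ • v = v) (h2 : θ • w = w)
    {x : F} (hx : Un v w x) : rt v w (θ.1 x) = τ (rt v w x) := by
  have e1 := smul_ev (hv.ev_spec hx.1.le) (hθ _)
  have e2 := smul_ev (hw.ev_spec hx.2.le) (hθ _)
  rw [h1] at e1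
  rw [h2] at e2
  rw [rt, e1, e2, rt, map_div₀]

end Ratio

section Act

variable {k K Ω : Type} [Field k] [Field K] [Algebra k K] [Field Ω] [Algebra k Ω]
  (B : BCK k K Ω)

theorem act_lt (τ : Ω ≃ₐ[k] Ω) (w : Place Ω B.F) (h : K) (a : Ω) :
    (B.act τ • w).val (algebraMap K B.F h - algebraMap Ω B.F a) =
      w.val (algebraMap K B.F h - algebraMap Ω B.F (τ.symm a)) := by
  rw [← smul_val_apply (B.act τ) w, map_sub (B.act τ).1, B.act_K, B.act_Ω, AlgEquiv.apply_symm_apply]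

theorem act_pl' (τ : Ω ≃ₐ[k] Ω) (η : K →ₐ[k] Ω) (hη : ∀ h, τ (η h) = η h) :
    B.act τ • B.pl η = B.pl η := by
  refine B.uniq _ _ fun h a ha => ?_
  rw [act_lt] at ha
  have := (B.pl η).const_eq ha (B.pl_val η h)
  rw [show a = η h by rw [← hη h, ← this, AlgEquiv.apply_symm_apply]]
  exact B.pl_val η h

theorem io_sub (z : Place k K) {h : K} {c : k} (hc : z.val (h - algebraMap k K c) < 1) :
    (B.io z).val (algebraMap K B.F h - algebraMap Ω B.F (algebraMap k Ω c)) < 1 := by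
  rw [← IsScalarTower.algebraMap_apply, IsScalarTower.algebraMap_apply k K B.F, ← map_sub,
    B.io_val]
  exact hc

theorem act_io' [IsAlgClosed k] (hK : IsFF k K) (τ : Ω ≃ₐ[k] Ω) (z : Place k K) :
    B.act τ • B.io z = B.io z := by
  refine B.uniq _ _ fun h a ha => ?_
  rw [act_lt] at ha
  have h1 := (B.io z).le_of_sub_lt ha
  rw [B.io_val] at h1
  obtain ⟨c, hc⟩ := res hK z h h1
  have h2 := io_sub B z hc
  have := (B.io z).const_eq ha h2
  rw [show a = algebraMap k Ω c by rw [← τ.commutes c, ← this, AlgEquiv.apply_symm_apply]]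
  exact h2

theorem pl_triv' (η : K →ₐ[k] Ω) {h : K} (h0 : h ≠ 0) :
    (B.pl η).val (algebraMap K B.F h) = 1 :=
  (B.pl η).eq_one_of_sub (B.pl_val η h) (by simpa using h0)

end Act

theorem zeta_sub {k : Type} [Field k] {l : ℕ} [NeZero l] {ζ : k} (hζ : IsPrimitiveRoot ζ l)
    (a b : ZMod l) : ζ ^ (a - b).val * ζ ^ b.val = ζ ^ a.val := by
  rw [← pow_add, ← pow_mod_orderOf, ← hζ.eq_orderOf, ← ZMod.val_add, sub_add_cancel]

theorem zeta_inj' {k : Type} [Field k] {l : ℕ} [NeZero l] {ζ : k} (hζ : IsPrimitiveRoot ζ l)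
    {a b : ZMod l} (h : ζ ^ a.val = ζ ^ b.val) : a = b :=
  ZMod.val_injective l (hζ.pow_inj (ZMod.val_lt a) (ZMod.val_lt b) h)

theorem zeta_pow {k : Type} [Field k] {l : ℕ} [NeZero l] {ζ : k} (hζ : IsPrimitiveRoot ζ l)
    {P : ℕ} (hP : (P : ZMod l) = 1) (n : ℕ) : (ζ ^ n) ^ P = ζ ^ n := by
  have h1 : P ≡ 1 [MOD l] := (ZMod.natCast_eq_natCast_iff P 1 l).1 (by simpa using hP)
  have h2 : n * P ≡ n [MOD orderOf ζ] := by
    rw [← hζ.eq_orderOf]
    simpa using h1.mul_left n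
  rw [← pow_mul, ← pow_mod_orderOf, h2, pow_mod_orderOf]

theorem rep_dvd {k K : Type} [Field k] [IsAlgClosed k] [Field K] [Algebra k K] {l : ℕ}
    (hK : IsFF k K) {f : Kˣ} {D : Dv k K} {a : VV k K l} (h : Rep f D a) (v : Place k K) :
    (l : ℤ) ∣ v.ord (f : K) := by
  rw [← dv_apply (fins hK _), h.2]
  exact ⟨D v, by simp⟩

theorem dat (hWP : StmtWP) : StmtDAT := by
  intro k K Ω _ _ _ _ _ _ _ _ _ B l p _ _ _ ζ e x₀ x₁ φ A C L hK hlp hζ hL hA hξ hx₁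
  have hl : l.Prime := Fact.out
  have hp : p.Prime := Fact.out
  have hl0 : l ≠ 0 := hl.ne_zero
  have := hL.fd
  obtain ⟨hmov, -⟩ := hWP k K l hK
  have hζΩ : IsPrimitiveRoot (algebraMap k Ω ζ) l :=
    hζ.map_of_injective (algebraMap k Ω).injective
  set ξ := B.pl ((eta k K Ω).comp φ) with hξdef
  set x := B.io x₁ with hxdef
  have hv : ξ.Res := res B.ff ξ
  have hw : x.Res := res B.ff x
  -- the action
  let T : (Ω ≃ₐ[K] Ω) → SA Ω B.F := fun τ => B.act (τ.restrictScalars k)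
  have Tmul : ∀ τ τ' y, (T (τ * τ')).1 y = (T τ).1 ((T τ').1 y) := fun τ τ' y => by
    have : T (τ * τ') = T τ * T τ' := by
      rw [← map_mul]; rfl
    rw [this]; rfl
  have Tξ : ∀ τ, T τ • ξ = ξ := fun τ => act_pl' B _ _ fun h => τ.commutes (φ h)
  have Tx : ∀ τ, T τ • x = x := fun τ => act_io' B hK _ _
  have TK : ∀ τ (h : K), (T τ).1 (algebraMap K B.F h) = algebraMap K B.F h :=
    fun τ h => B.act_K _ h
  have Tun : ∀ τ y, Un ξ x y → Un ξ x ((T τ).1 y) := fun τ y hy => hy.act (Tξ τ) (Tx τ)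
  have Trt : ∀ τ y, Un ξ x y → rt ξ x ((T τ).1 y) = τ (rt ξ x y) := fun τ y hy =>
    rt_act hv hw (τ : Ω →+* Ω) (fun a => B.act_Ω _ a) (Tξ τ) (Tx τ) hy
  have hΦ : Un ξ x C.Φ := ⟨hξ, hx₁⟩
  -- the cocycle depends only on the restriction to `L`
  have hc : ∀ τ τ' : Ω ≃ₐ[K] Ω, (∀ y ∈ L, τ y = τ' y) → C.c τ = C.c τ' := fun τ τ' h => by
    rw [← sub_eq_zero]
    refine C.nd _ fun b => ?_
    obtain ⟨f, D, hf, -⟩ := hmov b ∅
    obtain ⟨r, hr⟩ := IsAlgClosed.exists_pow_nat_eq (algebraMap K Ω f) hl.pos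
    have hr0 : r ≠ 0 := by
      rintro rfl
      rw [zero_pow hl0] at hr
      exact f.ne_zero ((algebraMap K Ω).injective (by rw [← hr, map_zero]))
    have h1 := h r (hL.mem f r f.ne_zero (rep_dvd hK hf) hr)
    rw [C.kum τ f D b r hf hr, C.kum τ' f D b r hf hr] at h1
    have h2 := (algebraMap k Ω).injective (mul_right_cancel₀ hr0 h1)
    rw [map_sub, LinearMap.sub_apply, zeta_inj' hζ h2, sub_self]
  have hc1 : C.c 1 = 0 := by
    refine C.nd _ fun b => ?_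
    obtain ⟨f, D, hf, -⟩ := hmov b ∅
    obtain ⟨r, hr⟩ := IsAlgClosed.exists_pow_nat_eq (algebraMap K Ω f) hl.pos
    have hr0 : r ≠ 0 := by
      rintro rfl
      rw [zero_pow hl0] at hr
      exact f.ne_zero ((algebraMap K Ω).injective (by rw [← hr, map_zero]))
    have h1 := C.kum 1 f D b r hf hr
    rw [AlgEquiv.one_apply] at h1
    refine zeta_inj' hζ ((algebraMap k Ω).injective (mul_right_cancel₀ hr0 ?_))
    rw [← h1, ZMod.val_zero, pow_zero, map_one, one_mul]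
  have hfix : ∀ τ : Ω ≃ₐ[K] Ω, (∀ y ∈ L, τ y = y) → (T τ).1 C.Φ = C.Φ := fun τ h =>
    C.fix τ ((hc τ 1 h).trans hc1)
  have hres : ∀ τ τ' : Ω ≃ₐ[K] Ω, (∀ y ∈ L, τ y = τ' y) → (T τ).1 C.Φ = (T τ').1 C.Φ :=
    fun τ τ' h => by
      have h1 := hfix (τ'⁻¹ * τ) fun y hy => by
        rw [AlgEquiv.mul_apply, h y hy]; exact τ'.symm_apply_apply y
      conv_rhs => rw [← h1, ← Tmul, mul_inv_cancel_left]
  -- data for each automorphism of `L`
  choose lf hlf using hL.lift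
  choose f D hf hfx using fun γ : L ≃ₐ[K] L => hmov (C.c (lf γ)) {x₁}
  choose ψ hψ using fun γ : L ≃ₐ[K] L => C.coc (lf γ) (f γ) (D γ) (hf γ)
  choose D' hD' using fun γ : L ≃ₐ[K] L => hA _ _ _ (hf γ)
  choose r hr using fun γ : L ≃ₐ[K] L =>
    IsAlgClosed.exists_pow_nat_eq (algebraMap K Ω (φ (f γ))) hl.pos
  choose s hs using fun γ : L ≃ₐ[K] L => IsAlgClosed.exists_pow_nat_eq (x₁.ev (f γ : K)) hl.pos
  have hf1 : ∀ γ, x₁.val (f γ : K) = 1 := fun γ => hfx γ x₁ (Finset.mem_singleton_self _)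
  have hfun : ∀ γ, Un ξ x (algebraMap K B.F (f γ)) := fun γ =>
    ⟨pl_triv' B _ (f γ).ne_zero, by rw [hxdef, B.io_val, hf1]⟩
  have hfrt : ∀ γ, rt ξ x (algebraMap K B.F (f γ)) = (r γ / algebraMap k Ω (s γ)) ^ l :=
    fun γ => by
      rw [rt, Place.ev_eq _ (B.pl_val _ _),
        Place.ev_eq _ (io_sub B x₁ ((res hK x₁).ev_spec (hf1 γ).le)), div_pow, hr, ← map_pow, hs]
      rfl
  have hψ' : ∀ γ, (T (lf γ)).1 C.Φ = C.Φ * algebraMap K B.F (f γ) * ψ γ ^ l := hψ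
  have hψun : ∀ γ, Un ξ x (ψ γ) := fun γ =>
    (hΦ.mul (hfun γ)).of_mul_pow hl0 (hψ' γ ▸ Tun _ _ hΦ)
  have hrL : ∀ γ, r γ ∈ L := fun γ =>
    hL.mem (φ (f γ)) (r γ) (by simp) (rep_dvd hK (hD' γ)) (hr γ)
  have hsL : ∀ c : k, algebraMap k Ω c ∈ L := fun c => by
    rw [IsScalarTower.algebraMap_apply k K Ω]; exact L.algebraMap_mem _
  have hτs : ∀ (τ : Ω ≃ₐ[K] Ω) (c : k), τ (algebraMap k Ω c) = algebraMap k Ω c := fun τ c => by
    rw [IsScalarTower.algebraMap_apply k K Ω, τ.commutes]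
  have hcan : ∀ {a b : B.F} (γ δ), C.Φ * algebraMap K B.F (f γ) * algebraMap K B.F (f δ) * a =
      C.Φ * algebraMap K B.F (f γ) * algebraMap K B.F (f δ) * b → a = b := fun γ δ h =>
    mul_left_cancel₀ ((hΦ.mul (hfun γ)).mul (hfun δ)).ne h
  have hU : ∀ γ (τ : Ω ≃ₐ[K] Ω), (∀ y ∈ L, τ y = y) → τ (rt ξ x (ψ γ)) = rt ξ x (ψ γ) :=
    fun γ τ h => by
      rw [← Trt τ _ (hψun γ)]
      refine rt_root hv hw hζΩ (hψun γ) ?_
      have h1 := hres (τ * lf γ) (lf γ) fun y hy => by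
        have := hlf γ ⟨y, hy⟩
        rw [AlgEquiv.mul_apply, this]
        exact h _ (γ ⟨y, hy⟩).2
      rw [Tmul, hψ', map_mul, map_mul, map_pow, hfix τ h, TK] at h1
      exact mul_left_cancel₀ (hΦ.mul (hfun γ)).ne h1
  have hUU : ∀ γ δ, rt ξ x (ψ γ) * lf γ (rt ξ x (ψ δ)) = rt ξ x (ψ δ) * lf δ (rt ξ x (ψ γ)) :=
    fun γ δ => by
      rw [← Trt _ _ (hψun δ), ← Trt _ _ (hψun γ), ← rt_mul hv hw (hψun γ) (Tun _ _ (hψun δ)),
        ← rt_mul hv hw (hψun δ) (Tun _ _ (hψun γ))]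
      refine rt_root hv hw hζΩ ((hψun δ).mul (Tun _ _ (hψun γ))) (hcan γ δ ?_)
      have h1 := hres (lf γ * lf δ) (lf δ * lf γ) fun y hy => by
        have e1 := hlf δ ⟨y, hy⟩
        have e2 := hlf γ ⟨y, hy⟩
        rw [AlgEquiv.mul_apply, AlgEquiv.mul_apply, e1, e2, hlf, hlf, ← AlgEquiv.mul_apply,
          hL.comm, AlgEquiv.mul_apply]
      rw [Tmul, Tmul, hψ', hψ', map_mul, map_mul, map_mul, map_mul, map_pow, map_pow, hψ', hψ',
        TK, TK] at h1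
      rw [mul_pow, mul_pow]
      linear_combination h1
  -- the exponent
  obtain ⟨j₀, hj₀⟩ := hL.ins (rt ξ x C.Φ) fun τ h => by rw [← Trt τ _ hΦ, hfix τ h]
  choose jj hjj using fun γ => hL.ins _ (hU γ)
  obtain ⟨M, hM⟩ := (Set.finite_range jj).bddAbove
  have hl2 : 1 ≤ l - 1 := by have := hl.two_le; omega
  have hP : ((p ^ ((l - 1) * (j₀ + M)) : ℕ) : ZMod l) = 1 := by
    have h0 : (p : ZMod l) ≠ 0 := fun h =>
      hlp ((Nat.prime_dvd_prime_iff_eq hl hp).1 ((ZMod.natCast_eq_zero_iff p l).1 h))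
    rw [Nat.cast_pow, pow_mul, ZMod.pow_card_sub_one_eq_one h0, one_pow]
  have hj : j₀ + M ≤ (l - 1) * (j₀ + M) := Nat.le_mul_of_pos_left _ hl2
  set j := (l - 1) * (j₀ + M) with hjdef
  let W : (L ≃ₐ[K] L) → Ω := fun γ => r γ / algebraMap k Ω (s γ) * rt ξ x (ψ γ)
  have hWL : ∀ γ, W γ ^ p ^ j ∈ L := fun γ => by
    rw [mul_pow]
    refine mul_mem (pow_mem (div_mem (hrL γ) (hsL _)) _) (hjj γ j ?_)
    have := hM (Set.mem_range_self γ)
    omega
  refine ⟨j, ⟨_, hj₀ j (by omega)⟩, fun γ => ⟨_, hWL γ⟩, fun γ => C.c (lf γ), hP, rfl,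
    fun τ γ h => hc _ _ fun y hy => (hlf γ ⟨y, hy⟩).trans (h ⟨y, hy⟩).symm, fun γ => ?_,
    fun γ δ => ?_⟩
  · apply Subtype.ext
    rw [← hlf]
    show lf γ (rt ξ x C.Φ ^ p ^ j) = rt ξ x C.Φ ^ p ^ j * (W γ ^ p ^ j) ^ l
    rw [map_pow, ← Trt _ _ hΦ, hψ', rt_mul hv hw (hΦ.mul (hfun γ)) ((hψun γ).pow l),
      rt_mul hv hw hΦ (hfun γ), rt_pow hv hw (hψun γ), hfrt, pow_right_comm (W γ),
      ← mul_pow, mul_assoc, ← mul_pow]
  · apply Subtype.ext
    have e1 := C.kum (lf γ) _ _ _ (r δ) (hD' δ) (hr δ)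
    have e2 := C.kum (lf δ) _ _ _ (r γ) (hD' γ) (hr γ)
    have key : W γ * lf γ (W δ) = algebraMap k Ω
        (ζ ^ (e (C.c (lf γ)) (A (C.c (lf δ))) - e (C.c (lf δ)) (A (C.c (lf γ)))).val) *
          (W δ * lf δ (W γ)) := by
      simp only [W, map_mul, map_div₀, hτs]
      rw [e1, e2, ← zeta_sub hζ (e (C.c (lf γ)) (A (C.c (lf δ)))) (e (C.c (lf δ)) (A (C.c (lf γ)))),
        map_mul]
      linear_combination (r γ / algebraMap k Ω (s γ)) * (r δ / algebraMap k Ω (s δ)) *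
        algebraMap k Ω
          (ζ ^ (e (C.c (lf γ)) (A (C.c (lf δ))) - e (C.c (lf δ)) (A (C.c (lf γ)))).val) *
        algebraMap k Ω (ζ ^ (e (C.c (lf δ)) (A (C.c (lf γ)))).val) * hUU γ δ
    have key2 := congrArg (· ^ p ^ j) key
    simp only [mul_pow] at key2
    rw [← map_pow (algebraMap k Ω), zeta_pow hζ hP, ← map_pow, ← map_pow] at key2
    rw [MulMemClass.coe_mul, MulMemClass.coe_mul, MulMemClass.coe_mul, ← hlf, ← hlf]
    exact key2

end Pool.Agent.MP_cce4c9_lc.H94
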