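import Pool.Agent.MP_cce4c9_lc.H94.So

/-! A rigid representative in coordinates. -/

set_option autoImplicit false

open WithZero Polynomial

namespace Pool.Agent.MP_cce4c9_lc.H94

open Pool.Agent.MP_cce4c9_lc.H87 Pool.Agent.MP_cce4c9_lc.H87.Cv

variable {k : Type} [Field k] {d m : ℕ} {f : k[X]} {C : Cv k d m f} {l : ℕ}

theorem exists_spare [IsAlgClosed k] (Q : C.QA) (H : C.HA) :
    ∃ v : Place k C.Q, v.val C.t ≤ 1 ∧ th (Gc d m) (v.ev C.t) = 0 ∧ ¬C.Bad v := by
  classical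
  obtain ⟨c, hc, hcth⟩ := exists_roots k (Gc d m)
  obtain ⟨v₀, -⟩ := Q.inf
  choose pl hs hpl using fun i => Q.lies v₀ (c i)
  have hev : ∀ i, (pl i).ev C.t = c i := fun i => Place.ev_eq _ (hpl i)
  have hinj : Function.Injective pl := fun i j e => hc (by rw [← hev, e, hev])
  by_contra hno
  push Not at hno
  have h1 : Finset.univ.image pl ⊆ H.bad.1.toFinset := fun v hv => by
    obtain ⟨i, -, rfl⟩ := Finset.mem_image.1 hv
    exact H.bad.1.mem_toFinset.2 (hno _ ((pl i).le_of_sub_lt (hpl i)) (by rw [hev, hcth]))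
  have h2 := Finset.card_le_card h1
  rw [Finset.card_image_of_injective _ hinj, Finset.card_univ, Fintype.card_fin,
    ← Set.ncard_eq_toFinset_card _ H.bad.1, Gc] at h2
  have h3 : w0 d m * d ^ m ≤ m * d * d ^ m :=
    Nat.mul_le_mul_right _ (Nat.mul_le_mul_left _ (Nat.sub_le _ _))
  have h4 := H.bad.2
  nlinarith [Nat.zero_le ((m * d * d ^ m + 2) * mm d m)]

/-- The slots filled with the coordinates of a family of places. -/
noncomputable def slots (C : Cv k d m f) (pl : ℕ → Place k C.Q) (n : ℕ) : k :=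
  if n % (2 * m) < m then (pl (n / (2 * m))).ev (C.x (n % (2 * m)))
  else ((derivative f).eval ((pl (n / (2 * m))).ev (C.x (n % (2 * m) - m))))⁻¹

theorem xs_slots (pl : ℕ → Place k C.Q) (j : ℕ) {i : ℕ} (hi : i < m) :
    xs m (slots C pl) j i = (pl j).ev (C.x i) := by
  have h1 : (2 * m * j + i) % (2 * m) = i := by
    rw [Nat.mul_add_mod, Nat.mod_eq_of_lt (by omega)]
  have h2 : (2 * m * j + i) / (2 * m) = j := by
    rw [Nat.mul_add_div (by omega), Nat.div_eq_of_lt (by omega), add_zero]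
  rw [xs, slots, h1, h2, if_pos hi]

theorem zs_slots (pl : ℕ → Place k C.Q) (j : ℕ) {i : ℕ} (hi : i < m) :
    zs m (slots C pl) j i = ((derivative f).eval ((pl j).ev (C.x i)))⁻¹ := by
  have h1 : (2 * m * j + m + i) % (2 * m) = m + i := by
    rw [add_assoc, Nat.mul_add_mod, Nat.mod_eq_of_lt (by omega)]
  have h2 : (2 * m * j + m + i) / (2 * m) = j := by
    rw [add_assoc, Nat.mul_add_div (by omega), Nat.div_eq_of_lt (by omega), add_zero]
  rw [zs, slots, h1, h2, if_neg (by omega), Nat.add_sub_cancel_left]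

theorem at_slots (H : C.HA) (pl : ℕ → Place k C.Q) (j : ℕ) (h : (pl j).val C.t ≤ 1) :
    C.At (pl j) (xs m (slots C pl) j) := fun i hi => by
  rw [xs_slots pl j hi]; exact H.at_ev _ h i hi

theorem bas_slots (H : C.HA) (pl : ℕ → Place k C.Q) (j : ℕ) (h : (pl j).val C.t ≤ 1)
    (hb : ¬C.Bad (pl j)) (i : ℕ) (hi : i < m) :
    f.eval (xs m (slots C pl) j i) = f.eval (xs m (slots C pl) j 0) ∧
      zs m (slots C pl) j i * (derivative f).eval (xs m (slots C pl) j i) = 1 := by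
  obtain ⟨-, -, h3, h4⟩ := H.atT _ _ (at_slots H pl j h)
  refine ⟨h4 i hi, ?_⟩
  rw [zs_slots pl j hi, ← xs_slots pl j hi]
  refine inv_mul_cancel₀ fun e => hb ⟨h, ?_⟩
  rwa [Finset.prod_eq_zero (Finset.mem_range.2 hi) e, map_zero, sub_zero] at h3

theorem pa : StmtPA := by
  classical
  intro k _ _ l p d m _ _ _ f C Q H DE LO u hu hW
  have hl : 0 < l := (Fact.out : l.Prime).pos
  have hl' : (0 : ℤ) < l := by exact_mod_cast hl
  obtain ⟨c, hc⟩ := (H.memF _ _).1 hu.2.1
  have huc : (u : C.Q) = C.psi (l * N0 d m) c := by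
    rw [psi, ← hc, mul_left_comm, ← mul_pow, C.t_mul_s, one_pow, mul_one]
  have hc0 : c 0 0 = 1 := by
    obtain ⟨v, hv⟩ := Q.inf
    refine v.const_eq ((H.infI v hv).2.2.2.2 (l * N0 d m) c) ?_
    rw [← hc, map_one]
    exact good_inf hu v hv
  obtain ⟨v₀, hv₀, hth₀, hb₀⟩ := exists_spare Q H
  set Z := (EE C l u).support with hZ
  have hmem : ∀ v, v ∈ Z ↔ v.val C.t ≤ 1 ∧ v.ord (u : C.Q) ≠ 0 := fun v => by
    rw [Finsupp.mem_support_iff, EE_apply Q H hu]
    by_cases e : 1 < v.val C.t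
    · simp [e]
    · simp [e, not_lt.1 e]
  let pl : ℕ → Place k C.Q := fun j => if h : j < Z.card then (Z.equivFin.symm ⟨j, h⟩).1 else v₀
  have hplZ : ∀ j < Z.card, pl j ∈ Z := fun j hj => by
    simp only [pl, dif_pos hj]; exact (Z.equivFin.symm _).2
  have hplS : ∀ v ∈ Z, ∃ j < Z.card, pl j = v := fun v hv =>
    ⟨Z.equivFin ⟨v, hv⟩, Fin.is_lt _, by simp [pl]⟩
  have hplI : ∀ j < Z.card, ∀ j' < Z.card, pl j = pl j' → j = j' := fun j hj j' hj' e => by
    simp only [pl, dif_pos hj, dif_pos hj'] at e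
    simpa using Z.equivFin.symm.injective (Subtype.ext e)
  have hpl0 : ∀ j, ¬j < Z.card → pl j = v₀ := fun j hj => by simp only [pl, dif_neg hj]
  have hfin : ∀ j, (pl j).val C.t ≤ 1 := fun j => by
    by_cases hj : j < Z.card
    · exact ((hmem _).1 (hplZ j hj)).1
    · rw [hpl0 j hj]; exact hv₀
  have hnb : ∀ j, ¬C.Bad (pl j) := fun j => by
    by_cases hj : j < Z.card
    · exact fun hb => ((hmem _).1 (hplZ j hj)).2 (Place.ord_of_val_one _ (DE.bad _ _ hu.1 _ hb))
    · rw [hpl0 j hj]; exact hb₀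
  let μ : ℕ → ℕ := fun j => if j < Z.card then ((pl j).ord (u : C.Q) / l).toNat else 0
  have hμ : ∀ j < Z.card, ((l * μ j : ℕ) : ℤ) = (pl j).ord (u : C.Q) := fun j hj => by
    simp only [μ, if_pos hj]
    rw [Nat.cast_mul, Int.toNat_of_nonneg (Int.ediv_nonneg (good_fin H hu _ (hfin j)) hl'.le),
      Int.mul_ediv_cancel' (hu.2.2 _)]
  have hμ0 : ∀ j, μ j ≠ 0 ↔ j < Z.card := fun j =>
    ⟨fun h => by by_contra e; exact h (if_neg e), fun hj e => by
      have := hμ j hj
      rw [e] at this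
      exact ((hmem _).1 (hplZ j hj)).2 (by simpa using this.symm)⟩
  have hsum : ∑ j ∈ Finset.range Z.card, μ j = mm d m := by
    have h1 := EE_degree (l := l) Q u
    rw [Finsupp.degree_apply, ← hZ, ← Finset.sum_bij (s := Finset.range Z.card)
      (f := fun j => ((l * μ j : ℕ) : ℤ)) (fun j _ => pl j)
      (fun j hj => hplZ j (Finset.mem_range.1 hj))
      (fun j hj j' hj' e => hplI j (Finset.mem_range.1 hj) j' (Finset.mem_range.1 hj') e)
      (fun v hv => by
        obtain ⟨j, hj, e⟩ := hplS v hv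
        exact ⟨j, Finset.mem_range.2 hj, e⟩)
      (fun j hj => by
        rw [hμ j (Finset.mem_range.1 hj), EE_apply Q H hu, if_neg (not_lt.2 (hfin j))]),
      ← Nat.cast_sum, ← Finset.mul_sum, Nat.cast_inj] at h1
    exact Nat.eq_of_mul_eq_mul_left hl h1
  have hcard : Z.card ≤ mm d m := by
    rw [← hsum]
    conv_lhs => rw [← Finset.card_range Z.card, Finset.card_eq_sum_ones]
    exact Finset.sum_le_sum fun j hj =>
      Nat.one_le_iff_ne_zero.2 ((hμ0 j).2 (Finset.mem_range.1 hj))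
  have hsum' : ∑ j ∈ Finset.range (mm d m), μ j = mm d m := by
    rw [← Finset.sum_subset (Finset.range_subset_range.2 hcard) fun j _ hj => by
      by_contra e; exact hj (Finset.mem_range.2 ((hμ0 j).1 e)), hsum]
  have hμle : ∀ j < mm d m, μ j ≤ mm d m := fun j hj => by
    rw [← hsum']
    exact Finset.single_le_sum (f := μ) (fun _ _ => Nat.zero_le _) (Finset.mem_range.2 hj)
  let fx : ℕ → ℕ := fun j => if th (Gc d m) ((pl j).ev C.t) = 0 then 1 else 0
  have hfx : ∀ j, fx j = 1 ↔ th (Gc d m) ((pl j).ev C.t) = 0 := fun j => by simp [fx]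
  have hLO : ∀ j, (∀ w, C.At w (xs m (slots C pl) j) → w = pl j) ∧
      ∀ (n : ℕ) (c : ℕ → ℕ → k), n ≤ l * mm d m →
        ((pl j).val (C.psi (l * N0 d m) c) ≤ exp (-(n : ℤ)) ↔
          ∀ r < n, vanP f d m l (slots C pl) c (j, r) = 0) := fun j => by
    obtain ⟨v, -, h2, h3⟩ := LO _ _ (bas_slots H pl j (hfin j) (hnb j))
    obtain rfl : pl j = v := h2 _ (at_slots H pl j (hfin j))
    exact ⟨h2, fun n c hn => h3 _ _ n c hn⟩
  refine ⟨μ, fx, slots C pl, c, ⟨hsum', fun j _ => ⟨?_, fun e => ?_⟩⟩,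
    ⟨fun j _ => bas_slots H pl j (hfin j) (hnb j), fun j _ j' hj' h1 h2 => ?_, hc0,
      fun j hj => ?_⟩, fun j _ e => ?_, fun c' hc' hvan => ?_, huc⟩
  · simp only [fx]; split_ifs <;> omega
  · rw [hfx, hpl0 j fun h => (hμ0 j).2 h e]; exact hth₀
  · by_contra hno
    push Not at hno
    have := (hLO j).1 (pl j') fun i hi => by
      rw [hno i hi]; exact at_slots H pl j' (hfin j') i hi
    exact hj'.ne (hplI _ ((hμ0 _).1 h2) _ ((hμ0 _).1 h1) this)
  · refine ((hLO j).2 _ c (Nat.mul_le_mul_left _ (hμle j hj))).1 ?_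
    rw [← huc, (pl j).val_le_exp ((pl j).val_unit_ne u), neg_neg]
    by_cases e : j < Z.card
    · exact (hμ j e).le
    · rw [not_not.1 (mt (hμ0 j).1 e)]
      simpa using good_fin H hu _ (hfin j)
  · rw [← Place.ev_eq _ (H.atT _ _ (at_slots H pl j (hfin j))).2.1]
    exact (hfx j).1 e
  · refine H.indh (l * N0 d m) c' ?_
    rw [← H.psi_hat, hW _ (psi_mem H _ c') (fun v hv => ?_) (fun v hv => ?_), zero_mul]
    · have := (H.infI v hv).2.2.2.2 (l * N0 d m) c'
      rwa [hc', map_zero, sub_zero, ← H.psi_hat] at this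
    · by_cases hvZ : v ∈ Z
      · obtain ⟨j, hj, rfl⟩ := hplS v hvZ
        have hj' : j < mm d m := hj.trans_le hcard
        refine (((hLO j).2 _ c' (Nat.mul_le_mul ?_ (hμle j hj'))).2 (hvan j hj')).trans_eq ?_
        · split_ifs <;> omega
        · rw [(pl j).val_eq ((pl j).val_unit_ne u), ← hμ j hj]
          by_cases e : th (Gc d m) ((pl j).ev C.t) = 0
          · rw [if_pos e, if_pos ((hfx j).2 e), mul_one]
          · rw [if_neg e, if_neg (mt (hfx j).1 e), ← exp_add, Nat.cast_mul l,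
              Int.mul_ediv_cancel_left _ hl'.ne', Nat.cast_mul, Nat.cast_pred hl]
            congr 1
            ring
      · have h1 : v.ord (u : C.Q) = 0 := by
          by_contra e; exact hvZ ((hmem v).2 ⟨hv, e⟩)
        rw [(v.val_one_iff (v.val_unit_ne u)).2 h1, h1]
        simpa using psi_fin H _ c' v hv

end Pool.Agent.MP_cce4c9_lc.H94
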