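import Pool.Agent.MP_cce4c9_lc.H94.Ste

/-! Solutions are reduced representatives. -/

set_option autoImplicit false

open WithZero Polynomial

namespace Pool.Agent.MP_cce4c9_lc.H94

open Pool.Agent.MP_cce4c9_lc.H87 Pool.Agent.MP_cce4c9_lc.H87.Cv

variable {k : Type} [Field k] {d m : ℕ} {f : k[X]} {C : Cv k d m f} {l : ℕ}

theorem eq_of_le_of_deg {ι : Type} {D D' : ι →₀ ℤ} (h : D ≤ D') (e : D.degree = D'.degree) :
    D = D' := by
  ext v
  by_contra hne
  exact (deg_lt h (lt_of_le_of_ne (h v) hne)).ne e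

theorem ord_inf {u : C.Qˣ} {N : ℕ} {v : Place k C.Q} (h : v.val ((u : C.Q) * C.s ^ N) = 1) :
    v.ord (u : C.Q) + N * v.ord C.s = 0 := by
  have h1 := v.ord_of_val_one h
  have h2 : v.val (C.s ^ N) ≠ 0 := by
    rw [map_pow]; exact pow_ne_zero _ (v.val_unit_ne C.su)
  rwa [v.ord_mul (v.val_unit_ne u) h2, v.ord_pow] at h1

theorem EE_apply' (Q : C.QA) (H : C.HA) {u : C.Qˣ}
    (hu : ∀ v : Place k C.Q, 1 < v.val C.t → v.val ((u : C.Q) * C.s ^ (l * N0 d m)) = 1)
    (v : Place k C.Q) : EE C l u v = if 1 < v.val C.t then 0 else v.ord (u : C.Q) := by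
  rw [EE, Finsupp.add_apply, Finsupp.smul_apply, dv_apply (Q.fins _), H.Dinf_apply]
  split_ifs with hv
  · exact ord_inf (hu v hv)
  · simp

theorem at_eq {v : Place k C.Q} {a a' : ℕ → k} (h : C.At v a) (h' : C.At v a') :
    ∀ i < m, a i = a' i := fun i hi => v.const_eq (h i hi) (h' i hi)

theorem not_bad (H : C.HA) {v : Place k C.Q} {a z : ℕ → k} (h : C.At v a)
    (hz : ∀ i < m, z i * (derivative f).eval (a i) = 1) : ¬C.Bad v := fun hb => by
  have h1 := near_one (Finset.prod_ne_zero_iff.2 fun i hi =>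
    right_ne_zero_of_mul_eq_one (hz i (Finset.mem_range.1 hi))) (H.atT v a h).2.2.1
  exact hb.2.ne h1

theorem psi_mem (H : C.HA) (N : ℕ) (c : ℕ → ℕ → k) : C.psi N c * C.s ^ N ∈ C.FN N := by
  rw [H.psi_hat]; exact (H.memF _ _).2 ⟨c, rfl⟩

theorem psi_fin (H : C.HA) (N : ℕ) (c : ℕ → ℕ → k) (v : Place k C.Q) (hv : v.val C.t ≤ 1) :
    v.val (C.psi N c) ≤ 1 := H.finA v hv _ ((H.memA _).2 ⟨_, psi_mem H N c⟩)

theorem so : StmtSO := by
  classical
  intro k _ _ l d m _ f C Q H DE LO μ b c hμ ⟨hB, hD, hc, hV⟩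
  have hI : ∀ v : Place k C.Q, 1 < v.val C.t →
      v.val (C.psi (l * N0 d m) c * C.s ^ (l * N0 d m) - 1) < 1 := fun v hv => by
    have := (H.infI v hv).2.2.2.2 (l * N0 d m) c
    rwa [hc, map_one, ← H.psi_hat] at this
  have hI1 : ∀ v : Place k C.Q, 1 < v.val C.t →
      v.val (C.psi (l * N0 d m) c * C.s ^ (l * N0 d m)) = 1 := fun v hv =>
    near_one (c := 1) one_ne_zero (by simpa using hI v hv)
  obtain ⟨u, hu⟩ := Q.unit (C.psi (l * N0 d m) c) fun v hv e => by
    have := hI1 v hv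
    rw [map_mul, e, zero_mul] at this
    exact zero_ne_one this
  have : Nonempty (Place k C.Q) := ⟨Q.inf.choose⟩
  choose! pl hat hun hlo using fun j (hj : j < mm d m) => LO (xs m b j) (zs m b j) (hB j hj)
  have hE := EE_apply' (l := l) Q H (u := u) (by rw [hu]; exact hI1)
  have hord : ∀ j < mm d m, ((l * μ j : ℕ) : ℤ) ≤ (pl j).ord (u : C.Q) := fun j hj => by
    have h1 : μ j ≤ mm d m := by
      rw [← hμ]
      exact Finset.single_le_sum (f := μ) (fun _ _ => Nat.zero_le _) (Finset.mem_range.2 hj)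
    have := (hlo j hj (l * mm d m) (l * N0 d m) (l * μ j) c (Nat.mul_le_mul_left _ h1)).2
      (hV j hj)
    rwa [← hu, (pl j).val_le_exp ((pl j).val_unit_ne u), neg_neg] at this
  let D : Dv k C.Q := ∑ j ∈ Finset.range (mm d m), Finsupp.single (pl j) ((l * μ j : ℕ) : ℤ)
  have hDa : ∀ v, D v = (l * ∑ j ∈ Finset.range (mm d m) with C.At v (xs m b j), μ j : ℕ) :=
    fun v => by
      rw [Finsupp.finsetSum_apply, Finset.mul_sum, Finset.sum_filter, Nat.cast_sum]
      refine Finset.sum_congr rfl fun j hj => ?_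
      have hj' := Finset.mem_range.1 hj
      rw [Finsupp.single_apply]
      by_cases e : pl j = v
      · rw [if_pos e, if_pos (e ▸ hat j hj')]
      · rw [if_neg e, if_neg fun h => e (hun j hj' v h).symm, Nat.cast_zero]
  have hfin : ∀ v : Place k C.Q, v.val C.t ≤ 1 → 0 ≤ v.ord (u : C.Q) := fun v hv =>
    (v.val_le_one (v.val_unit_ne u)).1 (hu ▸ psi_fin H _ c v hv)
  have hle : D ≤ EE C l u := fun v => by
    rw [hDa]
    by_cases e : ∃ j < mm d m, C.At v (xs m b j) ∧ μ j ≠ 0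
    · obtain ⟨j, hj, h1, h2⟩ := e
      rw [Finset.sum_eq_single j, hE, if_neg (not_lt.2 (H.atT v _ h1).1), hun j hj v h1]
      · exact hord j hj
      · intro j' hj' hne
        obtain ⟨h3, h4⟩ := Finset.mem_filter.1 hj'
        by_contra h5
        rcases lt_or_gt_of_ne hne with h6 | h6
        · obtain ⟨i, hi, h7⟩ := hD j hj j' h6 h2 h5
          exact h7 (at_eq h1 h4 i hi)
        · obtain ⟨i, hi, h7⟩ := hD j' (Finset.mem_range.1 h3) j h6 h5 h2
          exact h7 (at_eq h4 h1 i hi)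
      · intro h
        exact absurd (Finset.mem_filter.2 ⟨Finset.mem_range.2 hj, h1⟩) h
    · push Not at e
      rw [Finset.sum_eq_zero fun j hj => e j (Finset.mem_range.1 (Finset.mem_filter.1 hj).1)
        (Finset.mem_filter.1 hj).2, hE]
      split_ifs with hv
      · simp
      · simpa using hfin v (not_lt.1 hv)
  have hDE : D = EE C l u := eq_of_le_of_deg hle (by
    rw [EE_degree Q, map_sum]
    simp only [Finsupp.degree_single]
    rw [← Nat.cast_sum, ← Finset.mul_sum, hμ])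
  have hmain : ∀ v : Place k C.Q, v.val C.t ≤ 1 → v.ord (u : C.Q) =
      (l * ∑ j ∈ Finset.range (mm d m) with C.At v (xs m b j), μ j : ℕ) := fun v hv => by
    rw [← hDa, hDE, hE, if_neg (not_lt.2 hv)]
  obtain ⟨u', hu', hG⟩ := DE.gg _ _ (psi_mem H (l * N0 d m) c) hI fun v hv => by
    rw [← hu, v.val_one_iff (v.val_unit_ne u), hmain v hv.1, Finset.filter_false_of_mem]
    · simp
    · intro j hj h
      exact not_bad H h (fun i hi => (hB j (Finset.mem_range.1 hj) i hi).2) hv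
  obtain rfl : u' = u := Units.ext (hu'.trans hu.symm)
  refine ⟨u', hu, ⟨hG, hu ▸ psi_mem H _ c, fun v => ?_⟩, hmain⟩
  by_cases hv : 1 < v.val C.t
  · have := ord_inf (u := u') (hu ▸ hI1 v hv)
    exact ⟨-(N0 d m * v.ord C.s), by push_cast at this; linear_combination this⟩
  · rw [hmain v (not_lt.1 hv), Nat.cast_mul]
    exact dvd_mul_right _ _

end Pool.Agent.MP_cce4c9_lc.H94
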