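import Pool.Agent.MP_cce4c9_lc.H87.SpecQ

/-! A reduced representative can be made rigid. -/

set_option autoImplicit false

open WithZero Polynomial

namespace Pool.Agent.MP_cce4c9_lc.H94

open Pool.Agent.MP_cce4c9_lc.H87 Pool.Agent.MP_cce4c9_lc.H87.Cv

theorem deg_nonneg {ι : Type} {D : ι →₀ ℤ} (h : 0 ≤ D) : 0 ≤ D.degree :=
  Finset.sum_nonneg fun v _ => h v

theorem deg_mono {ι : Type} {D D' : ι →₀ ℤ} (h : D ≤ D') : D.degree ≤ D'.degree := by
  have := deg_nonneg (sub_nonneg.2 h)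
  rw [map_sub] at this
  omega

theorem deg_lt {ι : Type} {D D' : ι →₀ ℤ} (h : D ≤ D') {v : ι} (hv : D v < D' v) :
    D.degree < D'.degree := by
  classical
  have : D + Finsupp.single v 1 ≤ D' := fun w => by
    have := h w
    rw [Finsupp.add_apply, Finsupp.single_apply]
    split_ifs with e
    · subst e; omega
    · omega
  have := deg_mono this
  rw [map_add, Finsupp.degree_single] at this
  omega

theorem exists_roots (k : Type) [Field k] [IsAlgClosed k] (G : ℕ) :
    ∃ c : Fin G → k, Function.Injective c ∧ ∀ i, th G (c i) = 0 := by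
  have key : ∀ n : ℕ, (n : k) ≠ 0 → G ≤ n →
      ∃ c : Fin G → k, Function.Injective c ∧ ∀ i, c i ^ n = 1 := fun n hn hG => by
    have : NeZero (n : k) := ⟨hn⟩
    have : NeZero n := ⟨fun e => hn (by simp [e])⟩
    obtain ⟨ζ, hζ⟩ := HasEnoughRootsOfUnity.exists_primitiveRoot k n
    refine ⟨fun i => ζ ^ (i : ℕ), fun i j h => Fin.ext (hζ.pow_inj (by omega) (by omega) h),
      fun i => ?_⟩
    rw [← pow_mul, mul_comm, pow_mul, hζ.pow_eq_one, one_pow]
  by_cases h : (G : k) = 0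
  · obtain ⟨c, h1, h2⟩ := key (G + 1) (by simp [h]) (by omega)
    exact ⟨c, h1, fun i => by rw [th, h2, sub_self, mul_zero]⟩
  · obtain ⟨c, h1, h2⟩ := key G h le_rfl
    exact ⟨c, h1, fun i => by rw [th, h2, sub_self, zero_mul]⟩

variable {k : Type} [Field k] {d m : ℕ} {f : k[X]} {C : Cv k d m f} {l : ℕ}

/-- The finite part of the divisor of a reduced representative. -/
noncomputable def EE (C : Cv k d m f) (l : ℕ) (u : C.Qˣ) : Dv k C.Q :=
  dv k (u : C.Q) + ((l * N0 d m : ℕ) : ℤ) • C.Dinf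

open Classical in
/-- The part of the divisor that lies over the roots of `th`. -/
noncomputable def pot (C : Cv k d m f) (l : ℕ) (u : C.Qˣ) : Dv k C.Q :=
  (EE C l u).filter fun v => th (Gc d m) (v.ev C.t) = 0

theorem good_inf {u : C.Qˣ} (hu : C.Good l u) (v : Place k C.Q) (hv : 1 < v.val C.t) :
    v.val ((u : C.Q) * C.s ^ (l * N0 d m) - 1) < 1 := by
  have := hu.1.1 v hv
  rwa [zpow_natCast, Units.val_mul, Units.val_pow_eq_pow_val] at this

theorem good_inf1 {u : C.Qˣ} (hu : C.Good l u) (v : Place k C.Q) (hv : 1 < v.val C.t) :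
    v.val ((u : C.Q) * C.s ^ (l * N0 d m)) = 1 :=
  near_one (c := 1) one_ne_zero (by simpa using good_inf hu v hv)

theorem EE_apply (Q : C.QA) (H : C.HA) {u : C.Qˣ} (hu : C.Good l u) (v : Place k C.Q) :
    EE C l u v = if 1 < v.val C.t then 0 else v.ord (u : C.Q) := by
  rw [EE, Finsupp.add_apply, Finsupp.smul_apply, dv_apply (Q.fins _), H.Dinf_apply]
  split_ifs with hv
  · have h1 := v.ord_of_val_one (good_inf1 hu v hv)
    have h2 : v.val (C.s ^ (l * N0 d m)) ≠ 0 := by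
      rw [map_pow]; exact pow_ne_zero _ (v.val_unit_ne C.su)
    rw [v.ord_mul (v.val_unit_ne u) h2, v.ord_pow] at h1
    exact h1
  · simp

theorem good_fin (H : C.HA) {u : C.Qˣ} (hu : C.Good l u) (v : Place k C.Q) (hv : v.val C.t ≤ 1) :
    0 ≤ v.ord (u : C.Q) :=
  (v.val_le_one (v.val_unit_ne u)).1 (H.finA v hv _ ((H.memA _).2 ⟨_, hu.2.1⟩))

theorem EE_nonneg (Q : C.QA) (H : C.HA) {u : C.Qˣ} (hu : C.Good l u) : 0 ≤ EE C l u := fun v => by
  rw [EE_apply Q H hu]
  split_ifs with hv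
  · exact le_rfl
  · exact good_fin H hu v (not_lt.1 hv)

theorem EE_degree (Q : C.QA) (u : C.Qˣ) : (EE C l u).degree = (l * mm d m : ℕ) := by
  rw [EE, map_add, map_zsmul, Q.deg, Q.pole, mm]
  push_cast
  ring

theorem pot_le (Q : C.QA) (H : C.HA) {u : C.Qˣ} (hu : C.Good l u) :
    (pot C l u).degree ≤ (l * mm d m : ℕ) := by
  rw [← EE_degree Q u]
  refine deg_mono fun v => ?_
  rw [pot, Finsupp.filter_apply]
  split_ifs
  · exact le_rfl
  · exact EE_nonneg Q H hu v

theorem exists_avoid [IsAlgClosed k] (Q : C.QA) (H : C.HA) {D : Dv k C.Q} {w : C.Q}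
    {v₀ : Place k C.Q} (hD : 0 ≤ D) (hdeg : D.degree ≤ mm d m) (hw : w ∈ LL D)
    (hth : ∀ v : Place k C.Q, th (Gc d m) (v.ev C.t) = 0 → D v = 0)
    (h0 : v₀.val w ≠ 0) (h1 : v₀.val w < 1) :
    ∃ v : Place k C.Q, v.val C.t ≤ 1 ∧ th (Gc d m) (v.ev C.t) = 0 ∧ v.ev w ≠ 0 ∧
      ∀ b, C.Bad b → b.ev w ≠ v.ev w := by
  classical
  obtain ⟨c, hc, hcth⟩ := exists_roots k (Gc d m)
  choose pl hs hpl using fun i => Q.lies v₀ (c i)
  have hev : ∀ i, (pl i).ev C.t = c i := fun i => Place.ev_eq _ (hpl i)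
  have hinj : Function.Injective pl := fun i j e => hc (by rw [← hev, e, hev])
  by_contra hno
  push Not at hno
  set K : Finset k := insert 0 (H.bad.1.toFinset.image fun b => b.ev w) with hK
  have hKc : K.card ≤ w0 d m * d ^ m + 1 := by
    refine (Finset.card_insert_le _ _).trans (Nat.succ_le_succ (Finset.card_image_le.trans ?_))
    rw [← Set.ncard_eq_toFinset_card _ H.bad.1]
    exact H.bad.2
  have hmap : ∀ v ∈ Finset.univ.image pl, v.ev w ∈ K := fun v hv => by
    obtain ⟨i, -, rfl⟩ := Finset.mem_image.1 hv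
    by_cases e : (pl i).ev w = 0
    · rw [e]; exact Finset.mem_insert_self _ _
    · obtain ⟨b, hb, hb'⟩ := hno (pl i) ((pl i).le_of_sub_lt (hpl i)) (by rw [hev, hcth]) e
      exact Finset.mem_insert_of_mem (Finset.mem_image.2 ⟨b, H.bad.1.mem_toFinset.2 hb, hb'⟩)
  have hcard := Finset.card_le_mul_card_image_of_maps_to hmap (mm d m) fun κ _ => by
    have := Q.zer D w κ v₀ ((Finset.univ.image pl).filter fun v => v.ev w = κ) hD hw ?_ ?_
    · omega
    · by_cases e : κ = 0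
      · simpa [e] using h0
      · rw [v₀.val.map_sub_eq_of_lt_right (by rwa [v₀.triv κ e]), v₀.triv κ e]
        exact one_ne_zero
    · intro v hv
      obtain ⟨hv1, rfl⟩ := Finset.mem_filter.1 hv
      obtain ⟨i, -, rfl⟩ := Finset.mem_image.1 hv1
      refine ⟨hs i, (Q.res _).ev_spec ?_⟩
      have := hw (pl i)
      rwa [hth _ (by rw [hev, hcth]), exp_zero] at this
  rw [Finset.card_image_of_injective _ hinj, Finset.card_univ, Fintype.card_fin, Gc] at hcard
  have h2 : w0 d m * d ^ m ≤ m * d * d ^ m :=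
    Nat.mul_le_mul_right _ (Nat.mul_le_mul_left _ (Nat.sub_le _ _))
  have h3 := Nat.mul_le_mul_left (mm d m) (hKc.trans (Nat.succ_le_succ h2))
  nlinarith

theorem step [IsAlgClosed k] (hl : 0 < l) (Q : C.QA) (H : C.HA) (DE : C.DE) (u : C.HH)
    (hu : C.Good l u.1) (hW : ¬C.Wz l u.1) :
    ∃ u' : C.HH, C.Good l u'.1 ∧ Hl.mk l u' = Hl.mk l u ∧
      (pot C l u.1).degree < (pot C l u'.1).degree := by
  classical
  rw [Wz] at hW
  push Not at hW
  obtain ⟨y, hyF, hyI, hyA, hy0⟩ := hW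
  set N := l * N0 d m with hN
  have hl' : (0 : ℤ) < l := by exact_mod_cast hl
  let D : Dv k C.Q :=
    ((EE C l u.1).filter fun v => th (Gc d m) (v.ev C.t) ≠ 0).mapRange (· / l) (by simp)
  have hDa : ∀ v, D v = if th (Gc d m) (v.ev C.t) = 0 ∨ 1 < v.val C.t then 0
      else v.ord (u.1 : C.Q) / l := fun v => by
    simp only [D, Finsupp.mapRange_apply, Finsupp.filter_apply, EE_apply Q H hu]
    by_cases e1 : th (Gc d m) (v.ev C.t) = 0 <;> by_cases e2 : 1 < v.val C.t <;> simp [e1, e2]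
  have hD0 : 0 ≤ D := fun v => by
    rw [hDa]
    split_ifs with e
    · exact le_rfl
    · exact Int.ediv_nonneg (good_fin H hu v (not_lt.1 fun h => e (Or.inr h))) hl'.le
  have hDl : (l : ℤ) • D ≤ EE C l u.1 := fun v => by
    rw [Finsupp.smul_apply, hDa]
    split_ifs with e
    · simpa using EE_nonneg Q H hu v
    · rw [EE_apply Q H hu, if_neg fun h => e (Or.inr h), smul_eq_mul,
        Int.mul_ediv_cancel' (hu.2.2 v)]
  have hdeg : D.degree ≤ mm d m := by
    have := deg_mono hDl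
    rw [map_zsmul, EE_degree Q, smul_eq_mul, Nat.cast_mul] at this
    exact le_of_mul_le_mul_left this hl'
  set w : C.Q := y * (u.1⁻¹ : C.Qˣ) with hwdef
  have hwu : w * u.1 = y := by rw [hwdef, mul_assoc, Units.inv_mul, mul_one]
  have hwI : ∀ v : Place k C.Q, 1 < v.val C.t → v.val w < 1 := fun v hv => by
    have := hyI v hv
    rwa [← hwu, mul_assoc, map_mul, good_inf1 hu v hv, mul_one] at this
  have hw : w ∈ LL D := fun v => by
    rw [hDa]
    by_cases e2 : 1 < v.val C.t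
    · rw [if_pos (Or.inr e2), exp_zero]; exact (hwI v e2).le
    · have := hyA v (not_lt.1 e2)
      rw [← hwu, map_mul, mul_comm, mul_le_mul_iff_right₀
        (zero_lt_iff.2 (v.val_unit_ne u.1))] at this
      by_cases e1 : th (Gc d m) (v.ev C.t) = 0
      · rw [if_pos (Or.inl e1), exp_zero]; rwa [if_pos e1] at this
      · rw [if_neg (not_or.2 ⟨e1, e2⟩)]; rwa [if_neg e1] at this
  obtain ⟨v₀, hv₀, hv₀'⟩ : ∃ v₀ : Place k C.Q, 1 < v₀.val C.t ∧ v₀.val w ≠ 0 := by
    by_contra hno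
    push Not at hno
    exact hy0 (by rw [← hwu, Q.zero w hno, zero_mul])
  obtain ⟨v, hvf, hvth, hκ, hvb⟩ := exists_avoid Q H hD0 hdeg hw
    (fun v hv => by rw [hDa, if_pos (Or.inl hv)]) hv₀' (hwI v₀ hv₀)
  set κ := v.ev w with hκdef
  have hlam : -κ⁻¹ ≠ 0 := neg_ne_zero.2 (inv_ne_zero hκ)
  have hφ : 1 + algebraMap k C.Q (-κ⁻¹) * w =
      algebraMap k C.Q (-κ⁻¹) * (w - algebraMap k C.Q κ) := by
    rw [mul_sub, ← map_mul, neg_mul, inv_mul_cancel₀ hκ, map_neg _ (1 : k), map_one]; ring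
  have hφv : ∀ z : Place k C.Q,
      z.val (1 + algebraMap k C.Q (-κ⁻¹) * w) = z.val (w - algebraMap k C.Q κ) := fun z => by
    rw [hφ, map_mul, z.triv _ hlam, one_mul]
  have hu1 : (u.1 * (1 + algebraMap k C.Q (-κ⁻¹) * w)) * C.s ^ N =
      u.1 * C.s ^ N + (-κ⁻¹) • (y * C.s ^ N) := by
    rw [Algebra.smul_def, ← hwu]; ring
  have hu1F : (u.1 * (1 + algebraMap k C.Q (-κ⁻¹) * w)) * C.s ^ N ∈ C.FN N := by
    rw [hu1]; exact add_mem hu.2.1 (Submodule.smul_mem _ _ hyF)
  obtain ⟨u₁, hu₁, hG₁⟩ := DE.gg N _ hu1F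
    (fun z hz => by
      rw [hu1, add_sub_right_comm]
      refine z.val.map_add_lt (good_inf hu z hz) ?_
      rw [Algebra.smul_def, map_mul, z.triv _ hlam, one_mul]
      exact hyI z hz)
    (fun b hb => by
      have h1 := DE.bad _ _ hu.1 b hb
      have h2 : b.val w ≤ 1 := by
        have := hw b
        rw [hDa, b.ord_of_val_one h1] at this
        simpa using this
      rw [map_mul, h1, one_mul, hφv]
      refine near_one (c := b.ev w - κ) (sub_ne_zero.2 (hvb b hb)) ?_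
      rw [map_sub (algebraMap k C.Q), sub_sub_sub_cancel_right]
      exact (Q.res b).ev_spec h2)
  have huG : C.GG (N : ℤ) u.1 := hu.1
  have hGφ : C.GG 0 (u₁ * u.1⁻¹) := by simpa using hG₁.mul huG.inv
  have hφval : ((u₁ * u.1⁻¹ : C.Qˣ) : C.Q) = 1 + algebraMap k C.Q (-κ⁻¹) * w := by
    rw [Units.val_mul, hu₁, mul_right_comm, Units.mul_inv, one_mul]
  set φ : C.Qˣ := u₁ * u.1⁻¹ with hφdef
  have hord : ∀ z : Place k C.Q, z.ord ((u.1 * φ ^ l : C.Qˣ) : C.Q) =
      z.ord (u.1 : C.Q) + l * z.ord (φ : C.Q) := fun z => by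
    rw [Units.val_mul, z.ord_mul (z.val_unit_ne _) (z.val_unit_ne _), Units.val_pow_eq_pow_val,
      z.ord_pow]
  have hφD : ∀ z : Place k C.Q, -D z ≤ z.ord (φ : C.Q) := fun z => by
    rw [← z.val_le_exp (z.val_unit_ne φ), hφval, hφv]
    refine z.val.map_sub_le (hw z) ((z.const_le κ).trans ?_)
    rw [← exp_zero, exp_le_exp]
    exact hD0 z
  have hG' : C.GG (N : ℤ) (u.1 * φ ^ l) := by simpa using huG.mul (hGφ.pow l)
  have hu' : C.Good l (u.1 * φ ^ l) := by
    refine ⟨hG', DE.quo N ((l - 1) * N) _ (u.1 ^ (l - 1)) ?_ ?_ ?_ fun z hz => ?_, fun z => ?_⟩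
    · have := huG.pow (l - 1)
      rwa [← Nat.cast_mul] at this
    · have := H.powF N _ (l - 1) hu.2.1
      rwa [mul_pow, ← pow_mul', ← Units.val_pow_eq_pow_val] at this
    · have e0 : l = (l - 1) + 1 := by omega
      have e1 : N + (l - 1) * N = l * N := by
        conv_rhs => rw [e0]
        ring
      have := H.powF _ _ l hu1F
      rw [e1]
      convert this using 1
      rw [Units.val_mul, Units.val_pow_eq_pow_val, Units.val_pow_eq_pow_val, hφval, mul_pow,
        mul_pow, ← pow_mul', mul_right_comm (u.1 : C.Q), ← pow_succ', ← e0]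
    · rw [z.val_le_one (z.val_unit_ne _), hord]
      have h1 := hDl z
      rw [Finsupp.smul_apply, EE_apply Q H hu, if_neg (not_lt.2 hz), smul_eq_mul] at h1
      have h2 := hφD z
      nlinarith
    · rw [hord]
      exact (hu.2.2 z).add (dvd_mul_right _ _)
  refine ⟨⟨u.1 * φ ^ l, N, hG'⟩, hu', (Hl.mk_eq_mk l _ _).2 ⟨⟨φ, 0, hGφ⟩, rfl⟩,
    deg_lt (fun z => ?_) (v := v) ?_⟩
  · rw [pot, pot, Finsupp.filter_apply, Finsupp.filter_apply, EE_apply Q H hu, EE_apply Q H hu']
    split_ifs with e1 e2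
    · exact le_rfl
    · have h2 := hφD z
      rw [hDa, if_pos (Or.inl e1)] at h2
      rw [hord]
      nlinarith
    · exact le_rfl
  · rw [pot, pot, Finsupp.filter_apply, Finsupp.filter_apply, EE_apply Q H hu, EE_apply Q H hu',
      if_pos hvth, if_pos hvth, if_neg (not_lt.2 hvf), if_neg (not_lt.2 hvf), hord]
    have h1 : v.val w ≤ 1 := by
      have := hw v
      rwa [hDa, if_pos (Or.inl hvth), exp_zero] at this
    have h2 : 0 < v.ord (φ : C.Q) := by
      rw [← v.val_lt_one (v.val_unit_ne φ), hφval, hφv]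
      exact (Q.res v).ev_spec h1
    nlinarith

theorem ste : StmtSTE := by
  intro k _ _ l p d m _ _ _ f C Q H DE
  have hl : 0 < l := (Fact.out : l.Prime).pos
  have key : ∀ (n : ℕ) (u : C.HH), C.Good l u.1 →
      ((l * mm d m : ℕ) : ℤ) - (pot C l u.1).degree < n →
      ∃ u' : C.HH, C.Good l u'.1 ∧ C.Wz l u'.1 ∧ Hl.mk l u' = Hl.mk l u := fun n => by
    induction n with
    | zero =>
      intro u hu h
      have := pot_le Q H hu
      omega
    | succ n ih =>
      intro u hu h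
      by_cases hW : C.Wz l u.1
      · exact ⟨u, hu, hW, rfl⟩
      · obtain ⟨u', hu', e, hlt⟩ := step hl Q H DE u hu hW
        obtain ⟨u'', h1, h2, h3⟩ := ih u' hu' (by push_cast at h ⊢; omega)
        exact ⟨u'', h1, h2, h3.trans e⟩
  intro u hu
  exact key ((((l * mm d m : ℕ) : ℤ) - (pot C l u.1).degree).toNat + 1) u hu (by omega)

end Pool.Agent.MP_cce4c9_lc.H94
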